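import Mathlib

/-!
# Multilinear Ω-algebras

Signatures are families `Ω : ℕ → Type v` (`Ω n` is the set of the `n`-ary operation symbols).  We
define structures of `Ω`-algebras on `k`-modules, subalgebras, ideals, quotients, sections,
polynomial identities and prime algebras.
-/

set_option autoImplicit false

namespace Pool.Agent.Q117.Om

universe u v w

/-- The structure of an `Ω`-algebra on the `k`-module `A`: each `ω ∈ Ω n` acts as a `k`-multilinear
map `A ^ n → A` (a distinguished element for `n = 0`). -/
def OpStr (k : Type u) [CommRing k] (Ω : ℕ → Type v) (A : Type w) [AddCommGroup A] [Module k A] :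
    Type (max v w) :=
  ∀ n : ℕ, Ω n → MultilinearMap k (fun _ : Fin n => A) A

/-- The formal `Ω`-monomials in the variables `x_0, x_1, x_2, …`. -/
inductive Mono (Ω : ℕ → Type v) : Type v
  | var : ℕ → Mono Ω
  | app : (n : ℕ) → Ω n → (Fin n → Mono Ω) → Mono Ω

/-- The number of occurrences of the variable `x_i` in a monomial. -/
def Mono.occ {Ω : ℕ → Type v} (i : ℕ) : Mono Ω → ℕ
  | .var j => if j = i then 1 else 0
  | .app _ _ ts => ∑ l, (ts l).occ i

section

variable {k : Type u} [CommRing k] {Ω : ℕ → Type v} {A : Type w} [AddCommGroup A] [Module k A]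

/-- The value of a monomial at the elements `a_0, a_1, …` of the algebra. -/
def Mono.eval (s : OpStr k Ω A) (a : ℕ → A) : Mono Ω → A
  | .var i => a i
  | .app n ω ts => s n ω (fun i => (ts i).eval s a)

/-- The value of an element `f` of the free `Ω`-algebra (the free module on the monomials) at the
elements `a_0, a_1, …` of the algebra. -/
def evalPoly (s : OpStr k Ω A) (a : ℕ → A) (f : Mono Ω →₀ k) : A :=
  f.sum fun t c => c • t.eval s a

/-- `f` is a polynomial identity of the algebra. -/
def IsIdentity (s : OpStr k Ω A) (f : Mono Ω →₀ k) : Prop :=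
  ∀ a : ℕ → A, evalPoly s a f = 0

/-- Homomorphisms of `Ω`-algebras. -/
def IsHom {B : Type*} [AddCommGroup B] [Module k B] (s : OpStr k Ω A) (t : OpStr k Ω B)
    (φ : A →ₗ[k] B) : Prop :=
  ∀ (n : ℕ) (ω : Ω n) (a : Fin n → A), φ (s n ω a) = t n ω (fun i => φ (a i))

/-- The algebras are isomorphic. -/
def Isomorphic {B : Type*} [AddCommGroup B] [Module k B] (s : OpStr k Ω A) (t : OpStr k Ω B) :
    Prop :=
  ∃ φ : A ≃ₗ[k] B, IsHom s t (φ : A →ₗ[k] B)

/-- Subalgebras: submodules closed under all operations. -/
def IsSubalg (s : OpStr k Ω A) (R : Submodule k A) : Prop :=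
  ∀ (n : ℕ) (ω : Ω n) (a : Fin n → A), (∀ i, a i ∈ R) → s n ω a ∈ R

/-- The structure of an `Ω`-algebra on a subalgebra. -/
def subStr (s : OpStr k Ω A) (R : Submodule k A) (hR : IsSubalg s R) : OpStr k Ω R :=
  fun n ω => ((s n ω).compLinearMap (fun _ => R.subtype)).codRestrict R
    (fun a => hR n ω _ (fun i => (a i).2))

/-- Ideals: submodules `I` with `ω(a_1, …, a_n) ∈ I` whenever some `a_i ∈ I`. -/
def IsIdeal (s : OpStr k Ω A) (I : Submodule k A) : Prop :=
  ∀ (n : ℕ) (ω : Ω n) (a : Fin n → A), (∃ i, a i ∈ I) → s n ω a ∈ I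

theorem sub_mem_of_ideal (s : OpStr k Ω A) {I : Submodule k A} (hI : IsIdeal s I) (n : ℕ)
    (ω : Ω n) (a b : Fin n → A) (h : ∀ i, a i - b i ∈ I) : s n ω a - s n ω b ∈ I := by
  have h1 := (s n ω).map_sub_map_piecewise a b Finset.univ
  rw [Finset.piecewise_univ] at h1
  rw [h1]
  refine Submodule.sum_mem _ fun i _ => hI n ω _ ⟨i, ?_⟩
  simp [h i]

/-- The structure of an `Ω`-algebra on the quotient by an ideal: an operation is applied to
representatives. -/
noncomputable def quotStr (s : OpStr k Ω A) (I : Submodule k A) (hI : IsIdeal s I) :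
    OpStr k Ω (A ⧸ I) :=
  fun n ω =>
    { toFun := fun x => Submodule.Quotient.mk (s n ω (fun i => (x i).out))
      map_update_add' := by
        intro _ m i x y
        have key : ∀ z : A ⧸ I, (Submodule.Quotient.mk
            (s n ω (fun j => (Function.update m i z j).out)) : A ⧸ I) =
            Submodule.Quotient.mk
              (s n ω (Function.update (fun j => (m j).out) i z.out)) := by
          intro z
          congr 2
          funext j
          by_cases hj : j = i
          · subst hj; simp
          · simp [hj]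
        rw [key, key, key, ← Submodule.Quotient.mk_add, ← MultilinearMap.map_update_add]
        rw [Submodule.Quotient.eq]
        refine sub_mem_of_ideal s hI n ω _ _ fun j => ?_
        by_cases hj : j = i
        · subst hj
          simp only [Function.update_self]
          rw [← Submodule.Quotient.eq, Submodule.Quotient.mk_add]
          have h1 : ∀ z : A ⧸ I, (Submodule.Quotient.mk z.out : A ⧸ I) = z :=
            fun z => Quotient.out_eq z
          rw [h1, h1, h1]
        · simp [hj]
      map_update_smul' := by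
        intro _ m i c x
        have key : ∀ z : A ⧸ I, (Submodule.Quotient.mk
            (s n ω (fun j => (Function.update m i z j).out)) : A ⧸ I) =
            Submodule.Quotient.mk
              (s n ω (Function.update (fun j => (m j).out) i z.out)) := by
          intro z
          congr 2
          funext j
          by_cases hj : j = i
          · subst hj; simp
          · simp [hj]
        rw [key, key, ← Submodule.Quotient.mk_smul, ← MultilinearMap.map_update_smul]
        rw [Submodule.Quotient.eq]
        refine sub_mem_of_ideal s hI n ω _ _ fun j => ?_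
        by_cases hj : j = i
        · subst hj
          simp only [Function.update_self]
          rw [← Submodule.Quotient.eq, Submodule.Quotient.mk_smul]
          have h1 : ∀ z : A ⧸ I, (Submodule.Quotient.mk z.out : A ⧸ I) = z :=
            fun z => Quotient.out_eq z
          rw [h1, h1]
        · simp [hj] }

theorem quotStr_mk (s : OpStr k Ω A) (I : Submodule k A) (hI : IsIdeal s I) (n : ℕ) (ω : Ω n)
    (a : Fin n → A) :
    quotStr s I hI n ω (fun i => Submodule.Quotient.mk (a i)) =
      Submodule.Quotient.mk (s n ω a) := by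
  show Submodule.Quotient.mk _ = _
  rw [Submodule.Quotient.eq]
  refine sub_mem_of_ideal s hI n ω _ _ fun j => ?_
  rw [← Submodule.Quotient.eq]
  exact Quotient.out_eq _

/-- The `Ω`-algebra `t` is isomorphic to a section `R / I` of the `Ω`-algebra `s`, where `R` is a
subalgebra and `I` is an ideal of `R`. -/
def IsoToSection {B : Type*} [AddCommGroup B] [Module k B] (t : OpStr k Ω B) (s : OpStr k Ω A) :
    Prop :=
  ∃ (R : Submodule k A) (hR : IsSubalg s R) (I : Submodule k R) (hI : IsIdeal (subStr s R hR) I),
    Isomorphic (quotStr (subStr s R hR) I hI) t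

/-- `f` is an identity of all proper sections `R / I` (that is, `R ≠ A` or `I ≠ 0`). -/
def IdentityOfProperSections (s : OpStr k Ω A) (f : Mono Ω →₀ k) : Prop :=
  ∀ (R : Submodule k A) (hR : IsSubalg s R) (I : Submodule k R) (hI : IsIdeal (subStr s R hR) I),
    ¬ (R = ⊤ ∧ I = ⊥) → IsIdentity (quotStr (subStr s R hR) I hI) f

/-- Critical algebras: they do not lie in the variety generated by their proper sections. -/
def IsCritical (s : OpStr k Ω A) : Prop :=
  ¬ ∀ f : Mono Ω →₀ k, IdentityOfProperSections s f → IsIdentity s f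

/-- `f` is a multilinear element of the free algebra in the variables `x_0, …, x_{N-1}`: each of
these occurs exactly once in each monomial of `f`, and there are no other variables. -/
def IsMultilinear (N : ℕ) (f : Mono Ω →₀ k) : Prop :=
  ∀ t ∈ f.support, ∀ i, t.occ i = if i < N then 1 else 0

/-- The product `S · T`: the span of all `f(s, t, a_1, a_2, …)` with `f` multilinear. -/
def prod (s : OpStr k Ω A) (S T : Set A) : Submodule k A :=
  Submodule.span k {x | ∃ (N : ℕ) (f : Mono Ω →₀ k) (a : ℕ → A), 2 ≤ N ∧ IsMultilinear N f ∧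
    a 0 ∈ S ∧ a 1 ∈ T ∧ x = evalPoly s a f}

/-- Prime algebras: `I · J ≠ 0` for all nonzero ideals `I`, `J`. -/
def IsPrimeAlg (s : OpStr k Ω A) : Prop :=
  ∀ I J : Submodule k A, IsIdeal s I → IsIdeal s J → I ≠ ⊥ → J ≠ ⊥ → prod s (I : Set A) J ≠ ⊥

/-! ## Homomorphisms and evaluation -/

theorem Mono.eval_hom {B : Type*} [AddCommGroup B] [Module k B] {s : OpStr k Ω A}
    {t : OpStr k Ω B} {φ : A →ₗ[k] B} (h : IsHom s t φ) (a : ℕ → A) (w : Mono Ω) :
    φ (w.eval s a) = w.eval t (fun i => φ (a i)) := by
  induction w with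
  | var i => rfl
  | app n ω ts ih =>
    simp only [Mono.eval]
    rw [h]
    congr 1
    funext i
    exact ih i

theorem evalPoly_hom {B : Type*} [AddCommGroup B] [Module k B] {s : OpStr k Ω A}
    {t : OpStr k Ω B} {φ : A →ₗ[k] B} (h : IsHom s t φ) (a : ℕ → A) (f : Mono Ω →₀ k) :
    φ (evalPoly s a f) = evalPoly t (fun i => φ (a i)) f := by
  unfold evalPoly
  rw [map_finsuppSum]
  refine Finsupp.sum_congr fun w _ => ?_
  rw [map_smul, Mono.eval_hom h]

/-- A section is a homomorphic image of a subalgebra. -/
theorem IsoToSection.exists_hom {B : Type*} [AddCommGroup B] [Module k B] {t : OpStr k Ω B}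
    {s : OpStr k Ω A} (h : IsoToSection t s) :
    ∃ (R : Submodule k A) (hR : IsSubalg s R) (ψ : R →ₗ[k] B),
      IsHom (subStr s R hR) t ψ ∧ Function.Surjective ψ := by
  obtain ⟨R, hR, I, hI, φ, hφ⟩ := h
  refine ⟨R, hR, (φ : (R ⧸ I) →ₗ[k] B) ∘ₗ I.mkQ, ?_, ?_⟩
  · intro n ω a
    have h1 := hφ n ω (fun i => Submodule.Quotient.mk (a i))
    rw [quotStr_mk] at h1
    exact h1
  · intro v
    obtain ⟨x, hx⟩ := I.mkQ_surjective (φ.symm v)
    exact ⟨x, by simp [hx]⟩

end

end Pool.Agent.Q117.Om
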